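import Mathlib
import Pool.Agent.Y16.AF.StmP

/-! Project AF: moments of the size of the configuration (`af_mom`). -/

open MeasureTheory Matrix
open scoped Matrix.Norms.Frobenius Topology
open Pool.Agent.Y16.Gluon Pool.Agent.Y16.AF

namespace Pool.Agent.Y421.AF

/-! ### Elementary inequalities -/

lemma exp_pow (p : ℕ) {x : ℝ} (hx : 0 ≤ x) :
    x ^ p * Real.exp (-(x / 2)) ≤ 2 ^ p * (p.factorial : ℝ) := by
  have h1 : (x / 2) ^ p / (p.factorial : ℝ) ≤ Real.exp (x / 2) :=
    Real.pow_div_factorial_le_exp (x / 2) (by positivity) p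
  have hf : (0 : ℝ) < p.factorial := by exact_mod_cast Nat.factorial_pos p
  rw [div_le_iff₀ hf, div_pow, div_le_iff₀ (by positivity)] at h1
  rw [Real.exp_neg, ← div_eq_mul_inv, div_le_iff₀ (Real.exp_pos _)]
  linarith

/-- the pointwise inequality -/
lemma pw (p : ℕ) {x m : ℝ} (hx : 0 ≤ x) (hm : 0 ≤ m) :
    x ^ p * Real.exp (-x) ≤ (2 * m) ^ p * Real.exp (-x) +
      2 ^ p * (p.factorial : ℝ) * Real.exp (-m) := by
  have hf : (0 : ℝ) < p.factorial := by exact_mod_cast Nat.factorial_pos p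
  rcases le_or_gt x (2 * m) with h | h
  · have h1 : x ^ p ≤ (2 * m) ^ p := pow_le_pow_left₀ hx h p
    have h2 := mul_le_mul_of_nonneg_right h1 (Real.exp_pos (-x)).le
    have h3 : 0 ≤ 2 ^ p * (p.factorial : ℝ) * Real.exp (-m) := by positivity
    linarith
  · have h1 := exp_pow p hx
    have h2 : Real.exp (-x) = Real.exp (-(x / 2)) * Real.exp (-(x / 2)) := by
      rw [← Real.exp_add]; congr 1; ring
    have h3 : Real.exp (-(x / 2)) ≤ Real.exp (-m) := Real.exp_le_exp.2 (by linarith)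
    have h4 : x ^ p * Real.exp (-x) ≤ 2 ^ p * (p.factorial : ℝ) * Real.exp (-m) := by
      rw [h2, ← mul_assoc]
      exact mul_le_mul h1 h3 (Real.exp_pos _).le (by positivity)
    have h5 : 0 ≤ (2 * m) ^ p * Real.exp (-x) := by positivity
    linarith

lemma fac_le (p : ℕ) (hp : p ≤ 8) (hp0 : p ≠ 0) : (1 : ℝ) + (p.factorial : ℝ) ≤ 9 ^ p := by
  have : 1 + p.factorial ≤ 9 ^ p := by
    interval_cases p <;> simp_all [Nat.factorial]
  exact_mod_cast this

/-- the abstract lemma -/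
lemma abs_mom {Ω : Type*} [MeasurableSpace Ω] (P : Measure Ω) [IsProbabilityMeasure P]
    (S r : Ω → ℝ) (β A m : ℝ) (hβ : 0 < β) (hA : 0 < A) (hm : 1 ≤ m) (hS : ∀ x, 0 ≤ S x)
    (hr : ∀ x, 0 ≤ r x) (hrS : ∀ x, r x ^ 2 ≤ A * S x)
    (hZ : Real.exp (-m) ≤ ∫ x, Real.exp (-(β * S x)) ∂P) (p : ℕ) (hp : p ≤ 8) :
    (∫ x, r x ^ p * Real.exp (-(β * S x)) ∂P) / ∫ x, Real.exp (-(β * S x)) ∂P ≤
      Real.sqrt (18 * A * m / β) ^ p := by
  set Z := ∫ x, Real.exp (-(β * S x)) ∂P with hZd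
  have hZ0 : 0 < Z := lt_of_lt_of_le (Real.exp_pos _) hZ
  have hint : Integrable (fun x => Real.exp (-(β * S x))) P := by
    by_contra h
    rw [hZd, integral_undef h] at hZ0
    exact lt_irrefl _ hZ0
  rw [div_le_iff₀ hZ0]
  rcases Nat.eq_zero_or_pos p with h0 | h0
  · subst h0
    simp [← hZd]
  set K := 18 * A * m / β with hK
  have hK0 : 0 < K := by rw [hK]; positivity
  set s := Real.sqrt K ^ p with hs
  have hs0 : 0 < s := pow_pos (Real.sqrt_pos.2 hK0) p
  have hs2 : s * s = K ^ p := by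
    rw [hs, ← mul_pow, Real.mul_self_sqrt hK0.le]
  have hpt : ∀ x, r x ^ p * Real.exp (-(β * S x)) ≤
      (1 / (2 * s)) * (((A / β) ^ p * (2 * m) ^ p + s * s) * Real.exp (-(β * S x)) +
        (A / β) ^ p * (2 ^ p * (p.factorial : ℝ) * Real.exp (-m))) := by
    intro x
    have h1 := pw p (x := β * S x) (m := m) (by have := hS x; positivity) (by linarith)
    have h2 : (r x ^ p) ^ 2 ≤ (A / β) ^ p * (β * S x) ^ p := by
      rw [← mul_pow, ← pow_mul, mul_comm p 2, pow_mul]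
      refine pow_le_pow_left₀ (by positivity) ?_ p
      have : A / β * (β * S x) = A * S x := by field_simp
      rw [this]
      exact hrS x
    have h3 : 2 * (r x ^ p) * s ≤ (r x ^ p) ^ 2 + s * s := by nlinarith [sq_nonneg (r x ^ p - s)]
    have hE := Real.exp_pos (-(β * S x))
    rw [one_div, inv_mul_eq_div, le_div_iff₀ (by positivity)]
    have h4 : 2 * (r x ^ p) * s * Real.exp (-(β * S x)) ≤
        ((A / β) ^ p * (β * S x) ^ p + s * s) * Real.exp (-(β * S x)) :=
      mul_le_mul_of_nonneg_right (by linarith) hE.le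
    have h5 : (A / β) ^ p * ((β * S x) ^ p * Real.exp (-(β * S x))) ≤ (A / β) ^ p *
        ((2 * m) ^ p * Real.exp (-(β * S x)) + 2 ^ p * (p.factorial : ℝ) * Real.exp (-m)) :=
      mul_le_mul_of_nonneg_left h1 (by positivity)
    nlinarith [h4, h5]
  have hi : Integrable (fun x => (1 / (2 * s)) * (((A / β) ^ p * (2 * m) ^ p + s * s) *
      Real.exp (-(β * S x)) + (A / β) ^ p * (2 ^ p * (p.factorial : ℝ) * Real.exp (-m)))) P :=
    ((hint.const_mul _).add (integrable_const _)).const_mul _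
  have h6 : ∫ x, r x ^ p * Real.exp (-(β * S x)) ∂P ≤
      ∫ x, (1 / (2 * s)) * (((A / β) ^ p * (2 * m) ^ p + s * s) *
      Real.exp (-(β * S x)) + (A / β) ^ p * (2 ^ p * (p.factorial : ℝ) * Real.exp (-m))) ∂P :=
    integral_mono_of_nonneg (Filter.Eventually.of_forall fun x =>
      mul_nonneg (pow_nonneg (hr x) p) (Real.exp_pos _).le) hi
      (Filter.Eventually.of_forall hpt)
  refine h6.trans ?_
  rw [integral_const_mul, integral_add (hint.const_mul _) (integrable_const _),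
    integral_const_mul, ← hZd]
  simp only [integral_const, probReal_univ, smul_eq_mul, one_mul]
  rw [one_div, inv_mul_eq_div, div_le_iff₀ (by positivity)]
  have h7 : (A / β) ^ p * (2 * m) ^ p * Z + (A / β) ^ p * (2 ^ p * (p.factorial : ℝ) *
      Real.exp (-m)) ≤ K ^ p * Z := by
    have h8 : (A / β) ^ p * (2 ^ p * (p.factorial : ℝ) * Real.exp (-m)) ≤
        (A / β) ^ p * (2 ^ p * (p.factorial : ℝ) * (m ^ p * Z)) := by
      refine mul_le_mul_of_nonneg_left (mul_le_mul_of_nonneg_left ?_ (by positivity))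
        (by positivity)
      have : (1 : ℝ) ≤ m ^ p := one_le_pow₀ hm
      nlinarith
    have h9 := fac_le p hp (by omega)
    have h10 : K ^ p = (A / β) ^ p * 2 ^ p * 9 ^ p * m ^ p := by
      rw [← mul_pow, ← mul_pow, ← mul_pow]; congr 1; rw [hK]; ring
    have h11 : 0 ≤ (A / β) ^ p * 2 ^ p * m ^ p * Z := by positivity
    rw [h10]
    have h12 : (A / β) ^ p * (2 * m) ^ p * Z + (A / β) ^ p * (2 ^ p * (p.factorial : ℝ) *
        (m ^ p * Z)) = (A / β) ^ p * 2 ^ p * m ^ p * Z * (1 + (p.factorial : ℝ)) := by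
      rw [mul_pow]; ring
    calc _ ≤ (A / β) ^ p * (2 * m) ^ p * Z + (A / β) ^ p * (2 ^ p * (p.factorial : ℝ) *
        (m ^ p * Z)) := by linarith
      _ = (A / β) ^ p * 2 ^ p * m ^ p * Z * (1 + (p.factorial : ℝ)) := h12
      _ ≤ (A / β) ^ p * 2 ^ p * m ^ p * Z * 9 ^ p := mul_le_mul_of_nonneg_left h9 h11
      _ = _ := by ring
  have h13 : s * (2 * s) = 2 * (s * s) := by ring
  calc _ = ((A / β) ^ p * (2 * m) ^ p * Z + (A / β) ^ p * (2 ^ p * (p.factorial : ℝ) *
      Real.exp (-m))) + s * s * Z := by ring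
    _ ≤ K ^ p * Z + s * s * Z := by linarith
    _ = s * Z * (2 * s) := by rw [← hs2]; ring

/-! ### Norms -/

variable {N L : ℕ} {G : Subgroup (UU N)}

lemma mt_one : mt (1 : G) = 1 := rfl

lemma mt_mul (g h : G) : mt (g * h) = mt g * mt h := rfl

lemma mt_inv (g : G) : mt g⁻¹ = (mt g)ᴴ := rfl

lemma mt_un (g : G) : (mt g)ᴴ * mt g = 1 := by
  have h := (Matrix.mem_unitaryGroup_iff' (A := ((g : UU N) : Mt N))).1 (g : UU N).2
  exact h

lemma mt_un' (g : G) : mt g * (mt g)ᴴ = 1 := by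
  have h := (Matrix.mem_unitaryGroup_iff (A := ((g : UU N) : Mt N))).1 (g : UU N).2
  exact h

lemma norm_sq (A : Mt N) : ‖A‖ ^ 2 = (trace (Aᴴ * A)).re := by
  have h0 : ‖A‖ ^ 2 = ∑ i, ∑ j, ‖A i j‖ ^ 2 := by
    rw [Matrix.frobenius_norm_def, ← Real.rpow_natCast, ← Real.rpow_mul (by positivity)]
    norm_num
  rw [h0, Matrix.trace, Complex.re_sum, Finset.sum_comm]
  refine Finset.sum_congr rfl fun j _ => ?_
  rw [Matrix.diag_apply, Matrix.mul_apply, Complex.re_sum]
  refine Finset.sum_congr rfl fun i _ => ?_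
  rw [Matrix.conjTranspose_apply, Complex.star_def, ← Complex.normSq_eq_conj_mul_self,
    Complex.ofReal_re, Complex.normSq_eq_norm_sq]

lemma norm_sub_sq (g : G) : ‖mt g - 1‖ ^ 2 = 2 * (trace (1 - mt g)).re := by
  rw [norm_sq]
  have h : (mt g - 1)ᴴ * (mt g - 1) = (1 - mt g) + (1 - mt g)ᴴ := by
    rw [conjTranspose_sub, conjTranspose_one, sub_mul, mul_sub, mul_sub, mt_un,
      conjTranspose_sub, conjTranspose_one]
    simp only [one_mul, mul_one]
    abel
  rw [h, trace_add, trace_conjTranspose, Complex.add_re, Complex.star_def, Complex.conj_re]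
  ring

lemma norm_un_mul (g : G) (A : Mt N) : ‖mt g * A‖ = ‖A‖ := by
  have h : ‖mt g * A‖ ^ 2 = ‖A‖ ^ 2 := by
    rw [norm_sq, norm_sq, conjTranspose_mul, Matrix.mul_assoc, ← Matrix.mul_assoc (mt g)ᴴ,
      mt_un, Matrix.one_mul]
  exact (pow_left_inj₀ (norm_nonneg _) (norm_nonneg _) two_ne_zero).1 h

lemma norm_inv_sub (g : G) : ‖mt g⁻¹ - 1‖ = ‖mt g - 1‖ := by
  have h : mt g⁻¹ - 1 = -((mt g⁻¹) * (mt g - 1)) := by
    rw [mul_sub, ← mt_mul, inv_mul_cancel, mt_one]
    simp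
  rw [h, norm_neg, norm_un_mul]

lemma norm_mul_sub (g h : G) : ‖mt (g * h) - 1‖ ≤ ‖mt g - 1‖ + ‖mt h - 1‖ := by
  have h1 : mt (g * h) - 1 = mt g * (mt h - 1) + (mt g - 1) := by
    rw [mt_mul, mul_sub]
    simp
  rw [h1]
  refine (norm_add_le _ _).trans ?_
  rw [norm_un_mul]
  linarith

lemma re_nonneg (g : G) : 0 ≤ (trace (1 - mt g)).re := by
  have := norm_sub_sq g
  nlinarith [sq_nonneg ‖mt g - 1‖]

/-- the product of the legs -/
noncomputable def pr (U : Links L → G) (p : Pq L) : G :=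
  lg (fx U) p 0 * lg (fx U) p 1 * lg (fx U) p 2 * lg (fx U) p 3

lemma S0_eq [NeZero L] (U : Links L → G) : S0 U = ∑ p : Pq L, (trace (1 - mt (pr U p))).re := rfl

lemma S0_nonneg [NeZero L] (U : Links L → G) : 0 ≤ S0 U :=
  Finset.sum_nonneg fun p _ => re_nonneg (pr U p)

lemma fx_le {r : ℝ} (hr : 0 ≤ r) (U : Links L → G) (hU : ∀ w, ‖mt (U w) - 1‖ ≤ r)
    (w : Links L) : ‖mt (fx U w) - 1‖ ≤ r := by
  unfold fx
  split_ifs
  · exact hU w
  · rw [mt_one, sub_self, norm_zero]; exact hr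

lemma lg_le {r : ℝ} (hr : 0 ≤ r) (U : Links L → G) (hU : ∀ w, ‖mt (U w) - 1‖ ≤ r)
    (p : Pq L) (i : Fin 4) : ‖mt (lg U p i) - 1‖ ≤ r := by
  unfold lg
  split
  · rw [mt_one, sub_self, norm_zero]; exact hr
  · split_ifs
    · exact hU _
    · rw [norm_inv_sub]; exact hU _

lemma card_links [NeZero L] : Fintype.card (Links L) = L ^ 3 * (L + (L - 1) * 3) := by
  simp [Links, Sp, AL, Fintype.card_prod, Fintype.card_sum, ZMod.card]

lemma card_pq [NeZero L] : Fintype.card (Pq L) = 6 * L ^ 4 := by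
  simp [Pq, Sp, Fintype.card_prod, Fintype.card_sum, ZMod.card]
  ring

lemma S0_le [NeZero L] {r : ℝ} (hr : 0 ≤ r) (U : Links L → G)
    (hU : ∀ w, ‖mt (U w) - 1‖ ≤ r) : S0 U ≤ 48 * (L : ℝ) ^ 4 * r ^ 2 := by
  rw [S0_eq]
  have h : ∀ p : Pq L, (trace (1 - mt (pr U p))).re ≤ 8 * r ^ 2 := by
    intro p
    have h0 := lg_le hr (fx U) (fx_le hr U hU) p
    have h1 : ‖mt (pr U p) - 1‖ ≤ 4 * r := by
      unfold pr
      refine (norm_mul_sub _ _).trans ?_
      have a1 := norm_mul_sub (lg (fx U) p 0 * lg (fx U) p 1) (lg (fx U) p 2)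
      have a2 := norm_mul_sub (lg (fx U) p 0) (lg (fx U) p 1)
      have b0 := h0 0
      have b1 := h0 1
      have b2 := h0 2
      have b3 := h0 3
      linarith
    have h2 := norm_sub_sq (pr U p)
    have h3 := norm_nonneg (mt (pr U p) - 1)
    nlinarith
  refine (Finset.sum_le_sum fun p _ => h p).trans ?_
  rw [Finset.sum_const, Finset.card_univ, card_pq, nsmul_eq_mul]
  push_cast
  exact le_of_eq (by ring)

lemma mt_cont : Continuous (mt : G → Mt N) :=
  continuous_subtype_val.comp continuous_subtype_val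

lemma fx_cont (w : Links L) : Continuous fun U : Links L → G => fx U w := by
  unfold fx
  by_cases h : dyn w
  · simp only [h, if_true]; exact continuous_apply w
  · simp only [h, if_false]; exact continuous_const

lemma lg_cont (p : Pq L) (i : Fin 4) : Continuous fun U : Links L → G => lg (fx U) p i := by
  unfold lg
  cases h : lv p.2.1 p.2.2 i with
  | none => simp only; exact continuous_const
  | some a =>
    simp only
    by_cases hs : sb p.2.2 i = true
    · simp only [hs, if_true]; exact fx_cont _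
    · simp only [hs]; exact (fx_cont _).inv

lemma S0_cont [NeZero L] : Continuous (S0 : (Links L → G) → ℝ) := by
  have : (S0 : (Links L → G) → ℝ) = fun U => ∑ p : Pq L, (trace (1 - mt (pr U p))).re := rfl
  rw [this]
  refine continuous_finsetSum _ fun p _ => Complex.continuous_re.comp ?_
  refine Continuous.matrix_trace (continuous_const.sub (mt_cont.comp ?_))
  exact (((lg_cont p 0).mul (lg_cont p 1)).mul (lg_cont p 2)).mul (lg_cont p 3)

/-! ### The partition function -/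

instance scG : SecondCountableTopology G := by
  haveI h1 : SecondCountableTopology (Mt N) :=
    inferInstanceAs (SecondCountableTopology (Fin N → Fin N → ℂ))
  haveI h2 : SecondCountableTopology (UU N) :=
    TopologicalSpace.Subtype.secondCountableTopology _
  exact TopologicalSpace.Subtype.secondCountableTopology _

lemma one_le_log {β : ℝ} (h : 3 ≤ β) : 1 ≤ Real.log β := by
  rw [Real.le_log_iff_exp_le (by linarith)]
  have := Real.exp_one_lt_d9
  linarith

lemma card_le [NeZero L] : ((Fintype.card (Links L) : ℕ) : ℝ) ≤ 4 * (L : ℝ) ^ 4 := by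
  have h : Fintype.card (Links L) ≤ 4 * L ^ 4 := by
    rw [card_links]
    calc L ^ 3 * (L + (L - 1) * 3) ≤ L ^ 3 * (L + L * 3) :=
          Nat.mul_le_mul_left _ (by have := Nat.sub_le L 1; omega)
      _ = 4 * L ^ 4 := by ring
  exact_mod_cast h

lemma Z_lower [MeasurableSpace G] [BorelSpace G] (μ : Measure G) [IsProbabilityMeasure μ]
    (c : ℝ) (hc : 0 < c) (D : ℕ)
    (hcD : ∀ r : ℝ, 0 < r → r ≤ 1 → c * r ^ D ≤ (μ {g : G | ‖mt g - 1‖ ≤ r}).toReal)
    (L : ℕ) [NeZero L] (β : ℝ) (hβ : 3 ≤ β) :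
    Real.exp (-((48 + 4 * Real.log (min c 1)⁻¹ + 2 * D) * (L : ℝ) ^ 4 * Real.log β)) ≤
      ∫ U : Links L → G, Real.exp (-(β * S0 U)) ∂(Measure.pi fun _ => μ) := by
  set c0 := min c 1 with hc0
  have hc0p : 0 < c0 := lt_min hc one_pos
  have hc01 : c0 ≤ 1 := min_le_right _ _
  have hβ0 : 0 < β := by linarith
  set r := (Real.sqrt β)⁻¹ with hr
  have hsq : 0 < Real.sqrt β := Real.sqrt_pos.2 hβ0
  have hr0 : 0 < r := inv_pos.2 hsq
  have hr1 : r ≤ 1 := inv_le_one_of_one_le₀ (Real.one_le_sqrt.2 (by linarith))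
  have hr2 : r ^ 2 = 1 / β := by rw [hr, inv_pow, Real.sq_sqrt hβ0.le, one_div]
  have hlog := one_le_log hβ
  have hlr : Real.log r = -(1 / 2 * Real.log β) := by
    rw [hr, Real.log_inv, Real.log_sqrt hβ0.le]; ring
  set b := {g : G | ‖mt g - 1‖ ≤ r} with hb
  have hbm : MeasurableSet b :=
    (isClosed_le (mt_cont.sub continuous_const).norm continuous_const).measurableSet
  set B : Set (Links L → G) := Set.pi Set.univ fun _ => b with hB
  have hBm : MeasurableSet B := MeasurableSet.univ_pi fun _ => hbm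
  have hcont : Continuous fun U : Links L → G => Real.exp (-(β * S0 U)) :=
    Real.continuous_exp.comp (continuous_const.mul S0_cont).neg
  have hint : Integrable (fun U : Links L → G => Real.exp (-(β * S0 U)))
      (Measure.pi fun _ => μ) := by
    refine Integrable.mono' (integrable_const (1 : ℝ)) hcont.aestronglyMeasurable
      (Filter.Eventually.of_forall fun U => ?_)
    rw [Real.norm_eq_abs, Real.abs_exp]
    refine Real.exp_le_one_iff.2 ?_
    have := S0_nonneg U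
    nlinarith
  have h1 : ∫ U : Links L → G, B.indicator (fun _ => Real.exp (-(48 * (L : ℝ) ^ 4))) U
      ∂(Measure.pi fun _ => μ) ≤
      ∫ U : Links L → G, Real.exp (-(β * S0 U)) ∂(Measure.pi fun _ => μ) := by
    refine integral_mono ((integrable_const _).indicator hBm) hint fun U => ?_
    by_cases hU : U ∈ B
    · rw [Set.indicator_of_mem hU]
      refine Real.exp_le_exp.2 ?_
      have h2 := S0_le hr0.le U (fun w => hU w (Set.mem_univ w))
      rw [hr2] at h2
      have h3 : β * S0 U ≤ β * (48 * (L : ℝ) ^ 4 * (1 / β)) :=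
        mul_le_mul_of_nonneg_left h2 hβ0.le
      have h4 : β * (48 * (L : ℝ) ^ 4 * (1 / β)) = 48 * (L : ℝ) ^ 4 := by
        field_simp
      linarith
    · rw [Set.indicator_of_notMem hU]
      exact (Real.exp_pos _).le
  refine le_trans ?_ h1
  rw [integral_indicator_const _ hBm, smul_eq_mul]
  have h5 : (c0 * r ^ D) ^ (4 * L ^ 4) ≤ (Measure.pi fun _ : Links L => μ).real B := by
    rw [Measure.real, hB, Measure.pi_pi, Finset.prod_const, Finset.card_univ, ENNReal.toReal_pow]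
    have h6 : c0 * r ^ D ≤ (μ b).toReal :=
      (mul_le_mul_of_nonneg_right (min_le_left _ _) (by positivity)).trans (hcD r hr0 hr1)
    have h7 : c0 * r ^ D ≤ 1 := by
      have := pow_le_one₀ hr0.le hr1 (n := D)
      nlinarith [pow_pos hr0 D]
    have h8 : Fintype.card (Links L) ≤ 4 * L ^ 4 := by
      have := card_le (L := L)
      exact_mod_cast this
    calc (c0 * r ^ D) ^ (4 * L ^ 4) ≤ (c0 * r ^ D) ^ (Fintype.card (Links L)) :=
          pow_le_pow_of_le_one (by positivity) h7 h8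
      _ ≤ _ := pow_le_pow_left₀ (by positivity) h6 _
  refine le_trans ?_ (mul_le_mul_of_nonneg_right h5 (Real.exp_pos _).le)
  have h9 : c0 * r ^ D = Real.exp (Real.log c0 + D * Real.log r) := by
    rw [Real.exp_add, Real.exp_log hc0p, mul_comm (D : ℝ), Real.exp_mul, Real.exp_log hr0,
      Real.rpow_natCast]
  rw [h9, ← Real.exp_nat_mul, ← Real.exp_add]
  refine Real.exp_le_exp.2 ?_
  rw [hlr, Real.log_inv]
  have hlc : Real.log c0 ≤ 0 := Real.log_nonpos hc0p.le hc01
  push_cast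
  have hL : 0 < (L : ℝ) ^ 4 := by
    have : 0 < L := Nat.pos_of_ne_zero (NeZero.ne L)
    positivity
  nlinarith [mul_nonneg (mul_nonneg hL.le (neg_nonneg.2 hlc)) (sub_nonneg.2 hlog),
    mul_nonneg hL.le (sub_nonneg.2 hlog)]

lemma rr_sq [NeZero L] (hL : 2 ≤ L) (hC : S_COER) (U : Links L → G) :
    rr U ^ 2 ≤ 1600 * (L : ℝ) ^ 12 * S0 U := by
  unfold rr
  have h1 := sq_sum_le_card_mul_sum_sq (s := (Finset.univ : Finset (Dy L)))
    (f := fun w => ‖mt (U w.1) - 1‖)
  have h2 : ∑ w : Dy L, ‖mt (U w.1) - 1‖ ^ 2 ≤ ∑ _w : Dy L, 100 * (L : ℝ) ^ 4 * S0 U :=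
    Finset.sum_le_sum fun w _ => hC G L hL U w.1 w.2
  have h3 : ((Finset.univ : Finset (Dy L)).card : ℝ) ≤ 4 * (L : ℝ) ^ 4 := by
    refine le_trans ?_ (card_le (L := L))
    rw [Finset.card_univ]
    exact_mod_cast Fintype.card_subtype_le _
  rw [Finset.sum_const, nsmul_eq_mul] at h2
  have h4 := S0_nonneg U
  have h5 : (0 : ℝ) ≤ (Finset.univ : Finset (Dy L)).card := by positivity
  set k : ℝ := ((Finset.univ : Finset (Dy L)).card : ℝ) with hk
  calc _ ≤ k * ∑ w : Dy L, ‖mt (U w.1) - 1‖ ^ 2 := h1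
    _ ≤ k * (k * (100 * (L : ℝ) ^ 4 * S0 U)) := mul_le_mul_of_nonneg_left h2 h5
    _ = k * k * (100 * (L : ℝ) ^ 4 * S0 U) := by ring
    _ ≤ (4 * (L : ℝ) ^ 4) * (4 * (L : ℝ) ^ 4) * (100 * (L : ℝ) ^ 4 * S0 U) :=
        mul_le_mul_of_nonneg_right (mul_le_mul h3 h3 h5 (by positivity)) (by positivity)
    _ = _ := by ring

theorem af_mom : S_MOM := by
  intro hB hC N G hG _ _ μ _ _
  obtain ⟨c, hc, D, hcD⟩ := hB G hG μ
  set C1 := 48 + 4 * Real.log (min c 1)⁻¹ + 2 * (D : ℝ) with hC1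
  have hc0p : 0 < min c 1 := lt_min hc one_pos
  have hlc : 0 ≤ Real.log (min c 1)⁻¹ := by
    rw [Real.log_inv]
    have := Real.log_nonpos hc0p.le (min_le_right _ _)
    linarith
  have hC1' : 48 ≤ C1 := by
    have : (0 : ℝ) ≤ D := Nat.cast_nonneg D
    rw [hC1]; linarith
  refine ⟨28800 * C1, by linarith, fun L _ hL β hβ p hp => ?_⟩
  have hlog := one_le_log hβ
  have hLp : (1 : ℝ) ≤ L := by exact_mod_cast (by omega : 1 ≤ L)
  have hL4 : (1 : ℝ) ≤ (L : ℝ) ^ 4 := one_le_pow₀ hLp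
  have hm : 1 ≤ C1 * (L : ℝ) ^ 4 * Real.log β := by
    have h1 : 1 ≤ C1 * (L : ℝ) ^ 4 := by nlinarith
    nlinarith
  have h := abs_mom (Measure.pi fun _ : Links L => μ) (S0 : (Links L → G) → ℝ) rr β
    (1600 * (L : ℝ) ^ 12) (C1 * (L : ℝ) ^ 4 * Real.log β) (by linarith) (by positivity) hm
    S0_nonneg (fun U => Finset.sum_nonneg fun w _ => norm_nonneg _) (rr_sq hL hC)
    (Z_lower μ c hc D hcD L β hβ) p hp
  have he : 18 * (1600 * (L : ℝ) ^ 12) * (C1 * (L : ℝ) ^ 4 * Real.log β) / β =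
      28800 * C1 * (L : ℝ) ^ 16 * Real.log β / β := by ring
  rw [he] at h
  exact h

end Pool.Agent.Y421.AF
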